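import Mathlib

namespace Pool.Agent.Results.MP_6750b5_co.EdgeNotNested

/-- The weight of a graph on `Fin n` given by its adjacency relation `E` (loops allowed): `1` on
edges and loops, `0` otherwise. -/
noncomputable def weight {n : ℕ} (E : Fin n → Fin n → Prop) (a b : Fin n) : ℝ :=
  open Classical in if E a b then 1 else 0

/-- The multinomial coefficient `k! / (m_1! ... m_n!)`, where `m_l` is the number of entries of `i`
equal to `l`. -/
def multi {n k : ℕ} (i : Fin k → Fin n) : ℕ :=
  k.factorial / ∏ l : Fin n, (Finset.univ.filter (fun t => i t = l)).card.factorial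

/-- The set of all rearrangements of the tuple `i`. -/
noncomputable def orb {n k : ℕ} (i : Fin k → Fin n) : Finset (Fin k → Fin n) :=
  open Classical in Finset.univ.filter (fun p => ∃ σ : Equiv.Perm (Fin k), p = i ∘ σ)

/-- The weight of the `k`-th symmetric tensor power between two tuples. -/
noncomputable def symWeight {n : ℕ} (E : Fin n → Fin n → Prop) {k : ℕ} (i j : Fin k → Fin n) : ℝ :=
  (Real.sqrt ((multi i : ℝ) * (multi j : ℝ)))⁻¹ *
    ∑ p ∈ orb i, ∑ q ∈ orb j, ∏ l : Fin k, weight E (p l) (q l)

/-- The vertices of the `k`-th symmetric tensor power: nondecreasing `k`-tuples. -/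
abbrev SymVertex (n k : ℕ) : Type := {i : Fin k → Fin n // Monotone i}

/-- The `k`-th symmetric tensor power is a weighted subgraph of the `r`-th one. -/
def Nested {n : ℕ} (E : Fin n → Fin n → Prop) (k r : ℕ) : Prop :=
  ∃ φ : SymVertex n k → SymVertex n r, Function.Injective φ ∧
    ∀ x y : SymVertex n k, symWeight E x.1 y.1 ≤ symWeight E (φ x).1 (φ y).1

/-- The single edge on two vertices (no loops). -/
def K2 : Fin 2 → Fin 2 → Prop := fun a b => a ≠ b

theorem prod_eq_zero {k : ℕ} (p q : Fin k → Fin 2) (h : ∃ l, p l = q l) :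
    ∏ l : Fin k, weight K2 (p l) (q l) = 0 := by
  obtain ⟨l, hl⟩ := h
  apply Finset.prod_eq_zero (Finset.mem_univ l)
  unfold weight K2
  simp [hl]

theorem prod_eq_one {k : ℕ} (p q : Fin k → Fin 2) (h : ∀ l, p l ≠ q l) :
    ∏ l : Fin k, weight K2 (p l) (q l) = 1 := by
  apply Finset.prod_eq_one
  intro l _
  unfold weight K2
  simp [h l]

theorem prod_nonneg' {k : ℕ} (p q : Fin k → Fin 2) :
    0 ≤ ∏ l : Fin k, weight K2 (p l) (q l) := by
  apply Finset.prod_nonneg
  intro l _
  unfold weight
  split_ifs <;> norm_num

theorem multi_pos {n k : ℕ} (i : Fin k → Fin n) : 0 < multi i := by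
  unfold multi
  apply Nat.div_pos
  · apply Nat.le_of_dvd (Nat.factorial_pos k)
    have h := Nat.prod_factorial_dvd_factorial_sum (Finset.univ : Finset (Fin n))
      (fun l => (Finset.univ.filter (fun t => i t = l)).card)
    have h2 : ∑ l : Fin n, (Finset.univ.filter (fun t => i t = l)).card = k := by
      have := Finset.card_eq_sum_card_fiberwise (f := i) (s := (Finset.univ : Finset (Fin k)))
        (t := (Finset.univ : Finset (Fin n))) (fun x _ => Finset.mem_univ _)
      rw [Finset.card_univ, Fintype.card_fin] at this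
      exact this.symm
    rw [h2] at h
    exact h
  · exact Finset.prod_pos fun l _ => Nat.factorial_pos _

theorem card_fiber_of_mem_orb {n k : ℕ} {i p : Fin k → Fin n} (h : p ∈ orb i) (a : Fin n) :
    (Finset.univ.filter (fun t => p t = a)).card = (Finset.univ.filter (fun t => i t = a)).card := by
  unfold orb at h
  simp only [Finset.mem_filter, Finset.mem_univ, true_and] at h
  obtain ⟨σ, rfl⟩ := h
  apply Finset.card_bij (fun t _ => σ t)
  · intro t ht
    simpa using ht
  · intro t _ s _ h
    exact σ.injective h
  · intro t ht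
    refine ⟨σ.symm t, ?_, by simp⟩
    simpa using ht

/-- In an odd power of the single edge every loop has weight zero. -/
theorem loop_odd {r : ℕ} (hr : Odd r) (i : Fin r → Fin 2) : symWeight K2 i i = 0 := by
  unfold symWeight
  rw [Finset.sum_eq_zero, mul_zero]
  intro p hp
  apply Finset.sum_eq_zero
  intro q hq
  apply prod_eq_zero
  by_contra hcon
  push Not at hcon
  have h0 := card_fiber_of_mem_orb hp 0
  have h1 := card_fiber_of_mem_orb hq 0
  have h2 : (Finset.univ.filter (fun t => p t = 0)).card +
      (Finset.univ.filter (fun t => q t = 0)).card = r := by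
    have h3 : (Finset.univ.filter (fun t => q t = 0)) =
        (Finset.univ.filter (fun t => ¬ p t = 0)) := by
      ext t
      simp only [Finset.mem_filter, Finset.mem_univ, true_and]
      have := hcon t
      omega
    rw [h3, Finset.card_filter_add_card_filter_not, Finset.card_univ, Fintype.card_fin]
  rw [h1, ← h0] at h2
  obtain ⟨m, hm⟩ := hr
  omega

/-- In an even power `2 j` of the single edge the tuple with `j` zeros and `j` ones carries a loop
of positive weight. -/
theorem loop_even (j : ℕ) : ∃ x : SymVertex 2 (j + j), 0 < symWeight K2 x.1 x.1 := by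
  let i : Fin (j + j) → Fin 2 := fun t => if (t : ℕ) < j then 0 else 1
  have hi : Monotone i := by
    intro s t hst
    have : (s : ℕ) ≤ t := hst
    show (if (s : ℕ) < j then (0 : Fin 2) else 1) ≤ (if (t : ℕ) < j then (0 : Fin 2) else 1)
    split_ifs with h1 h2 h2
    · exact le_rfl
    · exact Fin.zero_le _
    · omega
    · exact le_rfl
  refine ⟨⟨i, hi⟩, ?_⟩
  unfold symWeight
  apply mul_pos
  · apply inv_pos.2
    apply Real.sqrt_pos.2
    have := multi_pos i
    positivity
  · have hmem : i ∈ orb i := by
      unfold orb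
      simp only [Finset.mem_filter, Finset.mem_univ, true_and]
      exact ⟨1, rfl⟩
    have hmem2 : i ∘ Fin.revPerm ∈ orb i := by
      unfold orb
      simp only [Finset.mem_filter, Finset.mem_univ, true_and]
      exact ⟨Fin.revPerm, rfl⟩
    apply Finset.sum_pos' (fun p _ => Finset.sum_nonneg fun q _ => prod_nonneg' p q)
    refine ⟨i, hmem, ?_⟩
    apply Finset.sum_pos' (fun q _ => prod_nonneg' i q)
    refine ⟨i ∘ Fin.revPerm, hmem2, ?_⟩
    rw [prod_eq_one]
    · norm_num
    · intro l
      show (if (l : ℕ) < j then (0 : Fin 2) else 1) ≠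
        (if ((Fin.rev l : Fin (j + j)) : ℕ) < j then (0 : Fin 2) else 1)
      rw [Fin.val_rev]
      have := l.isLt
      split_ifs with h1 h2 h2
      · omega
      · simp
      · simp
      · omega

/-- Let `G` be the single edge on two vertices (no loops).  For every even `k` and every odd `r`
(for example `k = 2` and `r = 3`), the `k`-th symmetric tensor power of `G` is not a weighted
subgraph of the `r`-th one. -/
theorem result (k r : ℕ) (hk : Even k) (hr : Odd r) :
    ¬ Nested (fun a b : Fin 2 => a ≠ b) k r := by
  obtain ⟨j, rfl⟩ := hk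
  rintro ⟨φ, -, hφ⟩
  obtain ⟨x, hx⟩ := loop_even j
  have h1 : symWeight K2 x.1 x.1 ≤ symWeight K2 (φ x).1 (φ x).1 := hφ x x
  rw [loop_odd hr] at h1
  linarith

end Pool.Agent.Results.MP_6750b5_co.EdgeNotNested
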